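import Pool.Agent.MWGR.StmtsB

/-!
# Block MWGR, row AGG (twin of Helper27_MWHP/ALG.lean)
-/

set_option autoImplicit false

namespace Pool.Agent.MWGR.H48AGG

open Pool.Agent.MWHP Pool.Agent.MWGR


open Pool.Agent.Helper14_MV Pool.Agent.Helper2_MV Pool.Agent.MVO Pool.Agent.MWL Pool.Agent.MWS
open Pool.Agent.MWA Pool.Agent.MWH

theorem dec1 (l : List ℕ) (x : ℕ) : ∃ PQ : List ℕ × List ℕ,
    (l.count x = 0 → l = PQ.1 ++ PQ.2) ∧ (l.count x ≠ 0 → l = PQ.1 ++ x :: PQ.2) := by
  by_cases h : l.count x = 0
  · exact ⟨(l, []), fun _ => by simp, fun h' => absurd h h'⟩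
  · have hm : x ∈ l := List.count_pos_iff.1 (Nat.pos_of_ne_zero h)
    obtain ⟨s, t, hst⟩ := List.append_of_mem hm
    exact ⟨(s, t), fun h' => absurd h' h, fun _ => hst⟩

theorem alg (h1 : MWS.ChkStmt) (h2 : DbgStmt) : AggStmt := by
  intro n β θ hb hle k C hC x a' hx hsh hL
  have hn : 1 ≤ n := hb.pos
  choose PQ hPQ0 hPQ1 using fun j => dec1 (C j) x
  obtain ⟨P, hP⟩ : ∃ P : ℕ → List ℕ, ∀ j, P j = (PQ j).1 := ⟨fun j => (PQ j).1, fun _ => rfl⟩
  obtain ⟨Q, hQ⟩ : ∃ Q : ℕ → List ℕ, ∀ j, Q j = (PQ j).2 := ⟨fun j => (PQ j).2, fun _ => rfl⟩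
  have e0 : ∀ j, (C j).count x = 0 → C j = P j ++ Q j := by
    intro j h; rw [hP, hQ]; exact hPQ0 j h
  have e1 : ∀ j, (C j).count x ≠ 0 → C j = P j ++ x :: Q j := by
    intro j h; rw [hP, hQ]; exact hPQ1 j h
  obtain ⟨d, hd⟩ : ∃ d : ℕ → ℕ, ∀ j, d j = if 2 ≤ (C j).count x then
      (n - 1) * (C j).count x + 1 else 0 := ⟨_, fun _ => rfl⟩
  -- arithmetic
  have hnt : ∀ t : ℕ, t + (n - 1) * t = n * t := by
    intro t
    obtain ⟨m, rfl⟩ : ∃ m, n = m + 1 := ⟨n - 1, by omega⟩
    simp only [Nat.add_sub_cancel]
    ring
  -- the family with the numbers of letters of the form n m + 1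
  have hD := h2 n β hb.it k C (fun j => P j ++ List.replicate ((C j).count x + d j) x ++ Q j) hC
    (by
      intro j hj
      by_cases h : 2 ≤ (C j).count x
      · right
        refine ⟨x, P j, Q j, (C j).count x, h, e1 j (by omega), ?_⟩
        have hdj : d j = (n - 1) * (C j).count x + 1 := by rw [hd, if_pos h]
        have : (C j).count x + d j = n * (C j).count x + 1 := by
          rw [hdj, ← Nat.add_assoc, hnt]
        rw [this, List.append_assoc]
      · left
        have hdj : d j = 0 := by rw [hd, if_neg h]
        rw [hdj, Nat.add_zero]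
        rcases Nat.lt_or_ge 0 ((C j).count x) with h0 | h0
        · have hc : (C j).count x = 1 := by omega
          rw [hc]
          have := e1 j (by omega)
          rw [List.append_assoc]
          exact this.symm
        · have hc : (C j).count x = 0 := by omega
          rw [hc]
          have := e0 j hc
          rw [List.append_assoc]
          exact this.symm)
  have hL2 : L1 θ k (fun j => ty C x j + d j) (fun j => a' j + d j) :=
    (FC.ofFIC θ).add d hL
  have hK := h1 θ k _ _ x P Q hL2
  -- counts of the new family
  have cnt : ∀ j c, (P j ++ List.replicate (a' j + d j) x ++ Q j).count c =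
      (P j).count c + (if c = x then a' j + d j else 0) + (Q j).count c := by
    intro j c
    rw [List.count_append, List.count_append, List.count_replicate]
    by_cases hcx : c = x
    · subst hcx; simp
    · have : (x == c) = false := by
        rw [beq_eq_false_iff_ne]; exact fun h => hcx h.symm
      rw [if_neg hcx]
      simp [this]
  have cC : ∀ j c, (C j).count c = (P j).count c + (Q j).count c +
      (if c = x ∧ (C j).count x ≠ 0 then 1 else 0) := by
    intro j c
    by_cases h : (C j).count x = 0
    · have h0 := e0 j h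
      have : ¬ (c = x ∧ (C j).count x ≠ 0) := fun hh => hh.2 h
      rw [if_neg this]
      conv_lhs => rw [h0]
      rw [List.count_append]
      rfl
    · have h0 := e1 j h
      by_cases hcx : c = x
      · have : (c = x ∧ (C j).count x ≠ 0) := ⟨hcx, h⟩
        rw [if_pos this]
        conv_lhs => rw [h0]
        rw [List.count_append, List.count_cons]
        subst hcx
        simp only [beq_self_eq_true, if_true]
        omega
      · have : ¬ (c = x ∧ (C j).count x ≠ 0) := fun hh => hcx hh.1
        rw [if_neg this]
        conv_lhs => rw [h0]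
        rw [List.count_append, List.count_cons]
        have hb : (x == c) = false := by
          rw [beq_eq_false_iff_ne]; exact fun h => hcx h.symm
        simp [hb]
  have hother : ∀ j, ∀ c, c ≠ x →
      (P j ++ List.replicate (a' j + d j) x ++ Q j).count c = (C j).count c := by
    intro j c hc
    rw [cnt, cC j c, if_neg hc, if_neg (fun h => hc h.1)]
    omega
  have hxx : ∀ j ≤ k, ((C j).count x ≤ 1 ∧ (C j).count x = a' j ∧
        (P j ++ List.replicate (a' j + d j) x ++ Q j).count x = a' j) ∨
      (2 ≤ (C j).count x ∧ 2 ≤ a' j ∧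
        (P j ++ List.replicate (a' j + d j) x ++ Q j).count x = a' j + n * (C j).count x) := by
    intro j hj
    have hs := hsh j hj
    have hty : ty C x j = (C j).count x := rfl
    rw [hty] at hs
    have hc1 := cnt j x
    have hc2 := cC j x
    rw [if_pos rfl] at hc1
    by_cases h : 2 ≤ (C j).count x
    · right
      have hdj : d j = (n - 1) * (C j).count x + 1 := by rw [hd, if_pos h]
      rw [if_pos ⟨rfl, by omega⟩] at hc2
      have h3 := hnt ((C j).count x)
      refine ⟨h, by omega, ?_⟩
      rw [hc1, hdj]
      omega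
    · left
      have hdj : d j = 0 := by rw [hd, if_neg h]
      refine ⟨by omega, by omega, ?_⟩
      rw [hc1, hdj]
      by_cases h0 : (C j).count x = 0
      · have : ¬ (x = x ∧ (C j).count x ≠ 0) := fun hh => hh.2 h0
        rw [if_neg this] at hc2
        omega
      · rw [if_pos ⟨rfl, h0⟩] at hc2
        omega
  have hmem : ∀ j ≤ k, ∀ c, c ∈ (P j ++ List.replicate (a' j + d j) x ++ Q j) → c ∈ C j := by
    intro j hj c hc
    have hp : 0 < (P j ++ List.replicate (a' j + d j) x ++ Q j).count c :=
      List.count_pos_iff.2 hc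
    apply List.count_pos_iff.1
    by_cases hcx : c = x
    · subst hcx
      rcases hxx j hj with h | h
      · rw [h.2.2] at hp
        omega
      · omega
    · rw [hother j c hcx] at hp
      exact hp
  refine ⟨fun j => P j ++ List.replicate (a' j + d j) x ++ Q j, ⟨?_, ?_⟩, ?_, ?_, ?_, ?_⟩
  · intro j hj c hc
    exact hC.ok j hj c (hmem j hj c hc)
  · intro j hj c hc
    have hcC := hmem j hj c hc
    have hm := hC.ml j hj c hcC
    by_cases hcx : c = x
    · subst hcx
      by_cases hex : ∃ i ≤ k, 2 ≤ (C i).count c
      · obtain ⟨i, hi, h2i⟩ := hex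
        have h3 : 2 ≤ (P i ++ List.replicate (a' i + d i) c ++ Q i).count c := by
          rcases hxx i hi with h | h
          · omega
          · omega
        refine le_trans h3 ?_
        exact Finset.single_le_sum (f := fun i => (P i ++ List.replicate (a' i + d i) c ++
          Q i).count c) (fun _ _ => Nat.zero_le _) (Finset.mem_range.2 (by omega))
      · have : deg k (fun j => (P j ++ List.replicate (a' j + d j) c ++ Q j).count c) =
            deg k (fun j => (C j).count c) := by
          unfold deg
          apply Finset.sum_congr rfl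
          intro i hi
          have hi' : i ≤ k := by have := Finset.mem_range.1 hi; omega
          rcases hxx i hi' with h | h
          · exact h.2.2.trans h.2.1.symm
          · exact absurd ⟨i, hi', h.1⟩ hex
        rw [this]
        exact hm
    · have : deg k (fun j => (P j ++ List.replicate (a' j + d j) x ++ Q j).count c) =
            deg k (fun j => (C j).count c) := by
        unfold deg
        apply Finset.sum_congr rfl
        intro i hi
        exact hother i c hcx
      rw [this]
      exact hm
  · rintro c ⟨j, hj, hc⟩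
    exact ⟨j, hj, hmem j hj c hc⟩
  · exact θ.trans (hle _ _ hD.2) hK
  · intro j hj c hc
    exact hother j c hc
  · intro j hj
    rcases hxx j hj with h | h
    · left
      exact h.2.2
    · right
      refine ⟨?_, h.2.1, ?_⟩
      · change 2 ≤ (P j ++ List.replicate (a' j + d j) x ++ Q j).count x
        rw [h.2.2]
        omega
      · change (P j ++ List.replicate (a' j + d j) x ++ Q j).count x ≡ a' j [MOD n]
        rw [h.2.2]
        have : a' j + n * (C j).count x ≡ a' j + 0 [MOD n] :=
          Nat.ModEq.add_left _ ((Nat.modEq_zero_iff_dvd).2 (Dvd.intro _ rfl))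
        exact this

end Pool.Agent.MWGR.H48AGG
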