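import Pool.Agent.MWGR.StmtsB

/-!
# Block MWGR, row DBG (twin of Helper13_MWHP/DBN.lean)
-/

set_option autoImplicit false

namespace Pool.Agent.MWGR.H48DBG

open Pool.Agent.MWHP Pool.Agent.MWGR


open Pool.Agent.Helper14_MV Pool.Agent.Helper2_MV Pool.Agent.MVO Pool.Agent.MWL Pool.Agent.MWS
open Pool.Agent.MWA Pool.Agent.MWH

theorem repn_mem {x c n : ℕ} {P Q : List ℕ} (h : c ∈ P ++ (List.replicate n x ++ Q)) :
    c ∈ P ++ x :: Q := by
  rw [List.mem_append, List.mem_append] at h
  rw [List.mem_append, List.mem_cons]
  rcases h with h | h | h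
  · exact Or.inl h
  · exact Or.inr (Or.inl (List.eq_of_mem_replicate h))
  · exact Or.inr (Or.inr h)

theorem repn_count {x c n : ℕ} {P Q : List ℕ} (hn : 1 ≤ n) :
    (P ++ x :: Q).count c ≤ (P ++ (List.replicate n x ++ Q)).count c := by
  rw [List.count_append, List.count_append, List.count_append, List.count_replicate,
    List.count_cons]
  by_cases h : x = c
  · subst h
    simp
    omega
  · have h1 : (x == c) = false := by simpa using h
    simp [h1]

theorem okb_of {k : ℕ} {B F : ℕ → List ℕ} (hB : OkB k B)
    (hmem : ∀ j ≤ k, ∀ c, c ∈ F j → c ∈ B j) (hcnt : ∀ j ≤ k, ∀ c, (B j).count c ≤ (F j).count c) :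
    OkB k F := by
  constructor
  · intro j hj c hc
    exact hB.ok j hj c (hmem j hj c hc)
  · intro j hj c hc
    refine (hB.ml j hj c (hmem j hj c hc)).trans ?_
    unfold deg
    apply Finset.sum_le_sum
    intro i hi
    rw [Finset.mem_range] at hi
    exact hcnt i (by omega) c

theorem dbn (hBLR : MWS.BlrStmt) (hRPN : RpgStmt) : DbgStmt := by
  intro n β hI k B B1 hB h
  have hmem1 : ∀ j ≤ k, ∀ c, c ∈ B1 j → c ∈ B j := by
    intro j hj c hc
    rcases h j hj with h1 | ⟨x, P, Q, m, h1, h2, h3⟩
    · rw [h1] at hc
      exact hc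
    · rw [h3] at hc
      rw [h2]
      exact repn_mem hc
  have hcnt1 : ∀ j ≤ k, ∀ c, (B j).count c ≤ (B1 j).count c := by
    intro j hj c
    rcases h j hj with h1 | ⟨x, P, Q, m, h1, h2, h3⟩
    · rw [h1]
    · rw [h3, h2]
      exact repn_count (Nat.le_add_left 1 _)
  refine ⟨okb_of hB hmem1 hcnt1, ?_⟩
  apply hBLR β k B B1
  intro m hm
  have hF : OkB k (fun j => if j < m then B1 j else B j) := by
    apply okb_of hB
    · intro j hj c hc
      by_cases hjm : j < m
      · simp only [if_pos hjm] at hc
        exact hmem1 j hj c hc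
      · simp only [if_neg hjm] at hc
        exact hc
    · intro j hj c
      by_cases hjm : j < m
      · simp only [if_pos hjm]
        exact hcnt1 j hj c
      · simp only [if_neg hjm]
        exact le_refl _
  rcases h m hm with h1 | ⟨x, P, Q, r, h1, h2, h3⟩
  · have e : asm k (fun j => if j < m then B1 j else B j) =
        asm k (fun j => if j < m + 1 then B1 j else B j) := by
      apply asm_congr
      intro j hj
      by_cases hjm : j = m
      · subst hjm
        rw [if_neg (lt_irrefl _), if_pos (Nat.lt_succ_self _), h1]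
      · by_cases hjl : j < m
        · rw [if_pos hjl, if_pos (by omega)]
        · rw [if_neg hjl, if_neg (by omega)]
    rw [e]
    exact RR.refl _
  · have h4 := hRPN n β hI k (fun j => if j < m then B1 j else B j) hF m hm x P Q r
      (by rw [if_neg (lt_irrefl _)]; exact h2) (by rw [if_neg (lt_irrefl _)]; exact h1)
    have e : asm k (Function.update (fun j => if j < m then B1 j else B j) m
        (P ++ (List.replicate (n * r + 1) x ++ Q))) =
          asm k (fun j => if j < m + 1 then B1 j else B j) := by
      apply asm_congr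
      intro j hj
      by_cases hjm : j = m
      · subst hjm
        rw [Function.update_self, if_pos (Nat.lt_succ_self _), h3]
      · rw [Function.update_of_ne hjm]
        by_cases hjl : j < m
        · rw [if_pos hjl, if_pos (by omega)]
        · rw [if_neg hjl, if_neg (by omega)]
    rw [e] at h4
    exact h4

end Pool.Agent.MWGR.H48DBG
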