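import Pool.Agent.MWGR.StmtsB

/-!
# Block MWGR, row LRG (twin of Helper8_MWHP/LRNN.lean)
-/

set_option autoImplicit false

namespace Pool.Agent.MWGR.H48LRG

open Pool.Agent.MWHP Pool.Agent.MWGR


open Pool.Agent.Helper14_MV Pool.Agent.Helper2_MV Pool.Agent.MVO Pool.Agent.MWL Pool.Agent.MWS
open Pool.Agent.MWA Pool.Agent.MWH

theorem mw_zero_sg (m : ℕ) : mw 0 (sg 0 m) = List.replicate m 0 := by
  simp [mw, asm, sg]

theorem mw_one_v2 (m : ℕ) : mw 1 (v2 2 m) = [0, 0, 2] ++ List.replicate m 0 := by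
  simp [mw, asm, v2, List.replicate]

/-- row LRNN -/
theorem lrnn : LrgStmt := by
  intro n β θ hβ hle
  refine ⟨hβ.pos, ?_, ?_⟩
  · show RR θ (mw 0 (sg 0 2)) (mw 0 (sg 0 (n + 2)))
    rw [mw_zero_sg, mw_zero_sg]
    exact hle _ _ hβ.ap
  · show RR θ (mw 1 (v2 2 1)) (mw 1 (v2 2 (n + 1)))
    rw [mw_one_v2, mw_one_v2]
    exact hle _ _ hβ.rr

end Pool.Agent.MWGR.H48LRG
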