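import Pool.Agent.MWGR.StmtsB
import Pool.Agent.Helper81_MWS.MJE

/-!
# Block MWGR, rows JPG, EDD, DDG, MMG: the reductions
-/

set_option autoImplicit false

namespace Pool.Agent.MWGR.H48R

open Pool.Agent.Helper14_MV Pool.Agent.Helper2_MV Pool.Agent.MVO Pool.Agent.MWL Pool.Agent.MWS
open Pool.Agent.MWA Pool.Agent.MWH Pool.Agent.MWHP Pool.Agent.MWGR
open Pool.Agent.MWS.H81 (psi_le psi_le_sup le_psi psi_nc)

/-- the law for one triple, words of the same types -/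
def TrG (n : ℕ) (ρ σ τ : FIC) : Prop :=
  ∀ (k : ℕ) (B B' : ℕ → List ℕ), OkB k B → OkB k B' → EqT n k B B' →
      RR (FIC.sup ρ σ) (asm k B) (asm k B') → RR τ (asm k B) (asm k B') →
        RR (psi ρ σ τ) (asm k B) (asm k B')

/-- reduction to the same types, one triple -/
theorem mon1 (one : Pool.Agent.MVO.OneStmt) (law : Pool.Agent.MWL.LawStmt)
    (chq : Pool.Agent.MWA.ChqStmt) (ndq : Pool.Agent.MWA.NdqStmt) (lrn : LrgStmt)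
    (shn : ShgStmt) (n : ℕ) (β : FIC) (hb : BasG n β) (ρ σ τ : FIC) (hρ : β ≤ ρ) (hσ : β ≤ σ)
    (hτ : β ≤ τ) (nρ : NC2 ρ) (nσ : NC2 σ) (nτ : NC2 τ) (hs : TrG n ρ σ τ)
    (k : ℕ) (B B' : ℕ → List ℕ) (oB : OkB k B) (oB' : OkB k B')
    (hsup : RR (FIC.sup ρ σ) (asm k B) (asm k B')) (hr : RR τ (asm k B) (asm k B')) :
    RR (psi ρ σ τ) (asm k B) (asm k B') := by
  have hψτ := psi_le ρ σ τ
  have hψs := psi_le_sup ρ σ τ
  have hβψ : β ≤ psi ρ σ τ := le_psi hρ hτ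
  have nψ : NC2 (psi ρ σ τ) := psi_nc nτ
  have claim : ∀ x, NS k x → L1 (psi ρ σ τ) k (ty B x) (ty B' x) := by
    intro x hx
    obtain ⟨B'', he, oB'', -, hch⟩ := chq β ρ σ hb.cap hρ hσ nρ nσ k B (asm k B') oB hsup
    have heq := uniq oB'.ok oB''.ok he
    have hJ : Jn (FC.ofFIC ρ) (FC.ofFIC σ) k (ty B x) (ty B'' x) := by
      refine Relation.ReflTransGen.lift (fun C => ty C x) ?_ _ _ hch
      rintro C D ⟨oC, oD, -, h | h⟩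
      · exact Or.inl (one.1 ρ k C D x hx oC.ok oD.ok h)
      · exact Or.inr (one.1 σ k C D x hx oC.ok oD.ok h)
    have hlast : (FC.ofFIC ρ).R k (ty B'' x) (ty B' x) := by
      refine (FC.ofFIC ρ).ext (fun j _ => rfl) (fun j hj => ?_) ((FC.ofFIC ρ).refl k (ty B'' x))
      show (B'' j).count x = (B' j).count x
      rw [heq j hj]
    exact law n (FC.ofFIC ρ) (FC.ofFIC σ) (FC.ofFIC τ) (FC.ofFIC (psi ρ σ τ))
      (lrn n β ρ hb hρ) (lrn n β σ hb hσ) (lrn n β τ hb hτ) (lrn n β _ hb hβψ)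
      (ndq β ρ hb.cap hρ nρ) (ndq β σ hb.cap hσ nσ) (ndq β τ hb.cap hτ nτ)
      (fun k a b h h' => FIC.le_sup_left (FIC.inf ρ τ) (FIC.inf σ τ) _ _ ⟨h, h'⟩)
      (fun k a b h h' => FIC.le_sup_right (FIC.inf ρ τ) (FIC.inf σ τ) _ _ ⟨h, h'⟩)
      k (ty B x) (ty B' x) (one.1 τ k B B' x hx oB.ok oB'.ok hr) (hJ.tail (Or.inl hlast))
  obtain ⟨C, C', oC, oC', sC, sC', hsh, hC, hC'⟩ := shn n β (psi ρ σ τ) hb hβψ nψ k B B' oB oB'
    claim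
  have h1 : RR (FIC.sup ρ σ) (asm k C) (asm k C') :=
    (FIC.sup ρ σ).trans ((FIC.sup ρ σ).symm (hψs _ _ hC))
      ((FIC.sup ρ σ).trans hsup (hψs _ _ hC'))
  have h2 : RR τ (asm k C) (asm k C') :=
    τ.trans (τ.symm (hψτ _ _ hC)) (τ.trans hr (hψτ _ _ hC'))
  have h3 := hs k C C' oC oC' hsh h1 h2
  exact (psi ρ σ τ).trans hC ((psi ρ σ τ).trans h3 ((psi ρ σ τ).symm hC'))

theorem rr_map {θ : FIC} (π : ℕ → ℕ) {u v : List ℕ} (h : RR θ u v) :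
    RR θ (u.map π) (v.map π) := by
  have h1 := h.sub (fun c => [π c])
  have e : ∀ l : List ℕ, l.flatMap (fun c => [π c]) = l.map π := by
    intro l
    induction l with
    | nil => rfl
    | cons a l ih => rw [List.flatMap_cons, ih, List.map_cons]; rfl
  rwa [e, e] at h1

/-- reduction to block words, one triple -/
theorem blk1 (hren : MVO.RenStmt) (hnrm : NrqStmt) {β ρ σ τ : FIC} (hβ : CapP β)
    (hτ : β ≤ τ) (nτ : NC2 τ)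
    (hM : ∀ (k : ℕ) (B B' : ℕ → List ℕ), OkB k B → OkB k B' →
      RR (FIC.sup ρ σ) (asm k B) (asm k B') → RR τ (asm k B) (asm k B') →
        RR (psi ρ σ τ) (asm k B) (asm k B')) (u v : List ℕ) (huv : RR (FIC.sup ρ σ) u v)
    (huv' : RR τ u v) : RR (psi ρ σ τ) u v := by
  obtain ⟨k, π, B, hu, hok, hml⟩ := hren u
  have h1 := rr_map π huv
  have h2 := rr_map π huv'
  rw [hu] at h1 h2
  obtain ⟨B', hv, hok', -⟩ := hnrm β τ hβ hτ nτ k B (v.map π) ⟨hok, hml⟩ h2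
  rw [hv] at h1 h2
  have h3 := hM k B B' ⟨hok, hml⟩ hok' h1 h2
  rw [← hu, ← hv] at h3
  have h4 := rr_map π.symm h3
  have e : ∀ l : List ℕ, (l.map π).map π.symm = l := by
    intro l
    rw [List.map_map]
    simp
  rwa [e, e] at h4

theorem dgp_tr {ρ σ τ : FIC} (h1 : ρ ≤ σ) (h2 : σ ≤ τ) : ρ ≤ τ := fun a b h => h2 a b (h1 a b h)

theorem dgp_mono {ρ ρ' σ σ' τ τ' : FIC} (h1 : ρ ≤ ρ') (h2 : σ ≤ σ') (h3 : τ ≤ τ') :
    psi ρ σ τ ≤ psi ρ' σ' τ' := by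
  apply FIC.sup_le
  · exact dgp_tr (FIC.le_inf (dgp_tr (FIC.inf_le_left _ _) h1) (dgp_tr (FIC.inf_le_right _ _) h3))
      (FIC.le_sup_left _ _)
  · exact dgp_tr (FIC.le_inf (dgp_tr (FIC.inf_le_left _ _) h2) (dgp_tr (FIC.inf_le_right _ _) h3))
      (FIC.le_sup_right _ _)

theorem dgp_refl (ρ : FIC) : ρ ≤ ρ := fun _ _ h => h

theorem dgp_swap (ρ σ : FIC) : FIC.sup ρ σ ≤ FIC.sup σ ρ :=
  FIC.sup_le (FIC.le_sup_right _ _) (FIC.le_sup_left _ _)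

/-- the degenerate cases of the modular law -/
theorem dgm (hX : Pool.Agent.MWA.MuxStmt) (hA : Pool.Agent.MWA.DgaStmt) (hB : DgcStmt)
    {n : ℕ} {β : FIC} (hn1 : 1 ≤ n) (hap : RR β [0, 0] (List.replicate (n + 2) 0))
    (hcap : CapP β)
    (hN : ∀ ρ σ τ : FIC, β ≤ ρ → β ≤ σ → β ≤ τ → ρ ≤ τ → NC2 ρ → NC2 σ → NC2 τ →
      ∀ u v : List ℕ, RR (FIC.sup ρ σ) u v → RR τ u v → RR (psi ρ σ τ) u v)
    (ρ σ τ : FIC) (hρ : β ≤ ρ) (hσ : β ≤ σ) (hτ : β ≤ τ) (hρτ : ρ ≤ τ) (u v : List ℕ)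
    (hs : RR (FIC.sup ρ σ) u v) (ht : RR τ u v) : RR (psi ρ σ τ) u v := by
  obtain ⟨m1, m2, _, _⟩ := hX
  have nI : ∀ κ, NC2 (FIC.inf κ mu) := fun κ h => m1 (FIC.inf_le_right κ mu _ _ h)
  by_cases hτn : NC2 τ
  · have hτm : τ ≤ mu := m2 β τ hcap hτ hτn
    have hβm : β ≤ mu := dgp_tr hτ hτm
    have h1 := hB n β hn1 hap hcap ρ σ hρ hσ u v hs (hτm _ _ ht)
    have h2 := hN (FIC.inf ρ mu) (FIC.inf σ mu) τ (FIC.le_inf hρ hβm) (FIC.le_inf hσ hβm) hτ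
      (dgp_tr (FIC.inf_le_left _ _) hρτ) (nI ρ) (nI σ) hτn u v h1 ht
    exact dgp_mono (FIC.inf_le_left _ _) (FIC.inf_le_left _ _) (dgp_refl τ) _ _ h2
  · by_cases hρn : NC2 ρ
    · by_cases hσn : NC2 σ
      · have hρm : ρ ≤ mu := m2 β ρ hcap hρ hρn
        have hσm : σ ≤ mu := m2 β σ hcap hσ hσn
        have hβm : β ≤ mu := dgp_tr hρ hρm
        have hm : RR mu u v := FIC.sup_le hρm hσm _ _ hs
        have ht' : RR (FIC.inf τ mu) u v := ⟨ht, hm⟩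
        have h2 := hN ρ σ (FIC.inf τ mu) hρ hσ (FIC.le_inf hτ hβm) (FIC.le_inf hρτ hρm) hρn hσn
          (nI τ) u v hs ht'
        exact dgp_mono (dgp_refl ρ) (dgp_refl σ) (FIC.inf_le_left _ _) _ _ h2
      · have h1 := hA σ ρ τ hσn hτn u v (dgp_swap ρ σ _ _ hs) ht
        exact dgp_swap (FIC.inf σ τ) (FIC.inf ρ τ) _ _ h1
    · exact hA ρ σ τ hρn hτn u v hs ht

/-- row MMG -/
theorem mmg (one : Pool.Agent.MVO.OneStmt) (law : Pool.Agent.MWL.LawStmt)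
    (chq : Pool.Agent.MWA.ChqStmt) (ndq : Pool.Agent.MWA.NdqStmt) (hren : MVO.RenStmt)
    (hnrm : NrqStmt) (hX : Pool.Agent.MWA.MuxStmt) (hA : Pool.Agent.MWA.DgaStmt)
    (hB : DgcStmt) (lrn : LrgStmt) (shn : ShgStmt) : MmgStmt := by
  intro n β hb hs ρ σ τ hρ hσ hτ hρτ u v h1 h2
  have h3 := dgm hX hA hB hb.pos hb.ap hb.cap (fun ρ σ τ hρ hσ hτ hρτ nρ nσ nτ u v h1 h2 =>
    blk1 hren hnrm hb.cap hτ nτ (fun k B B' oB oB' g1 g2 =>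
      mon1 one law chq ndq lrn shn n β hb ρ σ τ hρ hσ hτ nρ nσ nτ
        (hs ρ σ τ hρ hσ hτ hρτ nρ nσ nτ) k B B' oB oB' g1 g2) u v h1 h2)
    ρ σ τ hρ hσ hτ hρτ (FreeMonoid.toList u) (FreeMonoid.toList v) h1 h2
  have h4 : psi ρ σ τ ≤ FIC.sup ρ (FIC.inf σ τ) :=
    FIC.sup_le (dgp_tr (FIC.inf_le_left _ _) (FIC.le_sup_left _ _)) (FIC.le_sup_right _ _)
  exact h4 _ _ h3

/-- row DDG -/
theorem ddg (gld : MWS.GldStmt) (one : Pool.Agent.MVO.OneStmt) (law : Pool.Agent.MWL.LawStmt)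
    (chq : Pool.Agent.MWA.ChqStmt) (ndq : Pool.Agent.MWA.NdqStmt) (hren : MVO.RenStmt)
    (hnrm : NrqStmt) (dgq : DgqStmt) (lrn : LrgStmt) (shn : ShgStmt) : DdgStmt := by
  intro n β hb hs
  refine gld β (dgq n β hb.pos hb.ap hb.cap ?_)
  intro ρ σ τ hρ hσ hτ nρ nσ nτ u v h1 h2
  exact blk1 hren hnrm hb.cap hτ nτ (fun k B B' oB oB' g1 g2 =>
      mon1 one law chq ndq lrn shn n β hb ρ σ τ hρ hσ hτ nρ nσ nτ
        (hs ρ σ τ hρ hσ hτ nρ nσ nτ) k B B' oB oB' g1 g2) u v h1 h2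

/-- row EDD -/
theorem edd (nsn : NsnStmt) : EddStmt := by
  intro n β hcap hE ρ σ τ hρ hσ hτ nρ nσ nτ k B B' oB oB' hT h1 h2
  obtain ⟨L, hL, hiff⟩ := hE k B B' oB oB' hT
  have ns : NC2 (FIC.sup ρ σ) := nsn β ρ σ hcap hρ hσ nρ nσ
  have hβs : β ≤ FIC.sup ρ σ := dgp_tr hρ (FIC.le_sup_left _ _)
  have e1 := (hiff _ hβs ns).1 h1
  have e2 := (hiff _ hτ nτ).1 h2
  refine (hiff _ (le_psi hρ hτ) (psi_nc nτ)).2 ?_
  intro e he
  rcases hL e he ρ σ hρ hσ nρ nσ (e1 e he) with h | h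
  · exact FIC.le_sup_left (FIC.inf ρ τ) (FIC.inf σ τ) _ _ ⟨h, e2 e he⟩
  · exact FIC.le_sup_right (FIC.inf ρ τ) (FIC.inf σ τ) _ _ ⟨h, e2 e he⟩

theorem sub_tr {k : ℕ} {B C D : ℕ → List ℕ} (h : MWS.Sub k B C) (hs : MWS.Sub k C D) :
    MWS.Sub k B D := fun c hc => h c (hs c hc)

/-- row JPIG -/
theorem jpig (h1 : ChqStmt) : JpigStmt := by
  intro β hβ k B0 B1 A hB0 hB1 hA0 hA1 hext hinv ρ σ hρ hσ hnρ hnσ hsup
  by_contra hno
  rw [not_or] at hno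
  obtain ⟨hno1, hno2⟩ := hno
  obtain ⟨B', hv, hB', hsub, hchain⟩ := h1 β ρ σ hβ hρ hσ hnρ hnσ k B0 (asm k B1) hB0 hsup
  have key : ∀ B : ℕ → List ℕ, Relation.ReflTransGen (StM ρ σ k) B0 B →
      MWS.Sub k B0 B ∧ A B := by
    intro B hB
    induction hB with
    | refl => exact ⟨fun c hc => hc, hA0⟩
    | tail _ hstep ih =>
      obtain ⟨hk1, hk2, hs, hr⟩ := hstep
      have ht := sub_tr ih.1 hs
      refine ⟨ht, ?_⟩
      rcases hr with hr | hr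
      · exact hinv ρ hρ hnρ hno1 _ _ hk1 hk2 ih.1 ht hr ih.2
      · exact hinv σ hσ hnσ hno2 _ _ hk1 hk2 ih.1 ht hr ih.2
  have h2 := key B' hchain
  have h3 := uniq hB1.ok hB'.ok hv
  exact hA1 (hext B' B1 (fun j hj => (h3 j hj).symm) h2.2)

end Pool.Agent.MWGR.H48R
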