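import Pool.Agent.Helper48_MWGR.RPG
import Pool.Agent.Helper48_MWGR.DBG
import Pool.Agent.Helper48_MWGR.SAG
import Pool.Agent.Helper48_MWGR.STG
import Pool.Agent.Helper48_MWGR.AGG
import Pool.Agent.Helper48_MWGR.AAG
import Pool.Agent.Helper48_MWGR.SHG
import Pool.Agent.Helper48_MWGR.LRG
import Pool.Agent.Helper48_MWGR.Red
import Pool.Agent.Helper48_MWHP.Comp

/-!
# Block MWGR, part B without hypotheses
-/

set_option autoImplicit false

namespace Pool.Agent.MWGR.B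

open Pool.Agent.Helper14_MV Pool.Agent.Helper2_MV Pool.Agent.MVO Pool.Agent.MWL Pool.Agent.MWS
open Pool.Agent.MWGR Pool.Agent.MWHP.Comp

theorem lrg : LrgStmt := H48LRG.lrnn
theorem rpg : RpgStmt := H48RPG.rpg
theorem dbg : DbgStmt := H48DBG.dbn c_MWS_Blr rpg
theorem sag : SagStmt := H48SAG.satn c_MWL_Trn c_MWL_Abs lrg c_MWS_Chk rpg dbg
theorem stg : StgStmt := H48STG.sta c_MVO_One c_MWL_Trn sag
theorem agg : AggStmt := H48AGG.alg c_MWS_Chk dbg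
theorem aag : AagStmt := H48AAG.ala agg
theorem shg : ShgStmt := H48SHG.shn c_MVO_One c_MWL_Trn c_MWL_Key c_MWA_Ndq lrg stg aag
theorem jpig : JpigStmt := H48R.jpig c_MWA_Chq
theorem edd : EddStmt := H48R.edd c_MWHP_Nsn
theorem ddg : DdgStmt := H48R.ddg c_MWS_Gld c_MVO_One c_MWL_Law c_MWA_Chq c_MWA_Ndq c_MVO_Ren
  c_MWA_Nrq c_MWHP_Dgq lrg shg
theorem mmg : MmgStmt := H48R.mmg c_MVO_One c_MWL_Law c_MWA_Chq c_MWA_Ndq c_MVO_Ren c_MWA_Nrq
  c_MWA_Mux c_MWA_Dga c_MWHP_Dgc lrg shg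

end Pool.Agent.MWGR.B
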