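import Pool.Agent.Helper48_MWGR.CompB
import Pool.Agent.Helper5_MWGP.GAP

/-!
# Block MWGR: normalisation and the principle
-/

set_option autoImplicit false

namespace Pool.Agent.MWGR.H48P

open Pool.Agent.Helper14_MV Pool.Agent.Helper2_MV Pool.Agent.MVO Pool.Agent.MWL Pool.Agent.MWS
open Pool.Agent.MWH Pool.Agent.MWHP Pool.Agent.MWGR

/-- two letters with another common block commute -/
theorem cm2 {n : ℕ} {β : FIC} (hL : BG n (RR β)) : Cm2 β := by
  intro k C hC i hi j hj hji A D x y hCi hxy hxj hyj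
  have hcnt : ∀ a ∈ C j, 2 ≤ (asm k C).count a := by
    intro a ha
    rw [count_asm (hC.ok j hj a ha)]
    exact hC.ml j hj a ha
  rw [asm_split hi C, hCi] at hcnt
  rw [asm_update hi, asm_split hi C, hCi]
  rcases Nat.lt_or_gt_of_ne hji with hlt | hlt
  · have hx : x ∈ pre C i ++ A := List.mem_append_left _ (mem_pre.2 (Or.inr ⟨j, hlt, hxj⟩))
    have hy : y ∈ pre C i ++ A := List.mem_append_left _ (mem_pre.2 (Or.inr ⟨j, hlt, hyj⟩))
    have h := (MWGP.H5.gap n β hL.ga hL.rn (pre C i ++ A) (D ++ suf C i (k - i)) x y hx).2 hy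
    simpa only [List.append_assoc, List.cons_append] using h
  · obtain ⟨R, R', hs⟩ := suf_split (B := C) hlt (by omega : j ≤ i + (k - i))
    rw [hs] at hcnt ⊢
    obtain ⟨P, Q0, hP⟩ := List.append_of_mem hxj
    have hy : y ∈ P ∨ y ∈ Q0 := by
      rw [hP, List.mem_append, List.mem_cons] at hyj
      rcases hyj with h | h | h
      · exact Or.inl h
      · exact absurd h.symm hxy
      · exact Or.inr h
    rcases hy with hy | hy
    · obtain ⟨P1, c, hP1⟩ := List.append_of_mem hy
      have hc : ∀ a ∈ c, a ∈ C j := by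
        intro a ha
        rw [hP, hP1]
        simp [ha]
      have h := hL.f (pre C i ++ A) (D ++ R ++ P1) c (Q0 ++ R') y x (by
        intro a ha
        have h1 := hcnt a (hc a ha)
        rw [hP, hP1] at h1
        simp only [List.append_assoc, List.cons_append, List.count_append, List.count_cons] at h1 ⊢
        omega)
      rw [hP, hP1]
      have h2 := RR.symm h
      simpa only [List.append_assoc, List.cons_append] using h2
    · obtain ⟨c, Q, hQ⟩ := List.append_of_mem hy
      have hc : ∀ a ∈ c, a ∈ C j := by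
        intro a ha
        rw [hP, hQ]
        simp [ha]
      have h := hL.f (pre C i ++ A) (D ++ R ++ P) c (Q ++ R') x y (by
        intro a ha
        have h1 := hcnt a (hc a ha)
        rw [hP, hQ] at h1
        simp only [List.append_assoc, List.cons_append, List.count_append, List.count_cons] at h1 ⊢
        omega)
      rw [hP, hQ]
      simpa only [List.append_assoc, List.cons_append] using h

/-- row BGB -/
theorem bgb : BgbStmt := by
  intro n β h
  have hcm : Cm2 β := cm2 h
  have hrr : RR β [0, 0, 2, 0] ([0, 0, 2] ++ List.replicate (n + 1) 0) := by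
    have := (MWGP.H5.gap n β h.ga h.rn [0, 0, 2] [] 0 0 (by simp)).1
    simpa using this
  exact ⟨{ pos := h.pos
           ap := h.per
           rr := hrr
           it := h.it
           cap := MWHP.Comp.c_MWHP_Cph β hcm }, hcm⟩

/-- the number of copies -/
noncomputable def rr1 (n : ℕ) (B : ℕ → List ℕ) (j c : ℕ) : ℕ :=
  open Classical in if (∃ l < j, c ∈ B l) ∧ (B j).count c = 1 then n + 1 else 1

/-- the normalised family -/
noncomputable def nrm (n : ℕ) (B : ℕ → List ℕ) (j : ℕ) : List ℕ :=
  (B j).flatMap (fun c => List.replicate (rr1 n B j c) c)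

theorem count_fm (r : ℕ → ℕ) (l : List ℕ) (a : ℕ) :
    (l.flatMap (fun c => List.replicate (r c) c)).count a = l.count a * r a := by
  induction l with
  | nil => simp
  | cons b l ih =>
    rw [List.flatMap_cons, List.count_append, ih, List.count_replicate, List.count_cons]
    by_cases h : b = a
    · subst h
      simp
      ring
    · have h1 : (b == a) = false := by simpa using h
      simp [h1]

theorem rr1_pos (n : ℕ) (B : ℕ → List ℕ) (j c : ℕ) : 1 ≤ rr1 n B j c := by
  unfold rr1
  split <;> omega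

theorem nrm_count (n : ℕ) (B : ℕ → List ℕ) (j c : ℕ) :
    (nrm n B j).count c = (B j).count c * rr1 n B j c := count_fm _ _ _

theorem nrm_mem (n : ℕ) (B : ℕ → List ℕ) (j c : ℕ) : c ∈ nrm n B j ↔ c ∈ B j := by
  rw [← List.count_pos_iff, ← List.count_pos_iff, nrm_count]
  constructor
  · intro h
    exact Nat.pos_of_mul_pos_right h
  · intro h
    exact Nat.mul_pos h (rr1_pos n B j c)

/-- repeat non-first occurrences in a list -/
theorem fm_rr {n : ℕ} {β : FIC} (h : BG n (RR β)) (q : List ℕ) (r : ℕ → ℕ) :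
    ∀ (l p : List ℕ), (∀ c ∈ l, r c = 1 ∨ (c ∈ p ∧ r c = n + 1)) →
      RR β (p ++ (l ++ q)) (p ++ (l.flatMap (fun c => List.replicate (r c) c) ++ q)) := by
  intro l
  induction l with
  | nil => intro p _; exact RR.refl _
  | cons c l ih =>
    intro p hc
    rw [List.flatMap_cons]
    rcases hc c (by simp) with h1 | ⟨h1, h2⟩
    · rw [h1]
      have h3 := ih (p ++ [c]) (by
        intro d hd
        rcases hc d (by simp [hd]) with h4 | ⟨h4, h5⟩
        · exact Or.inl h4
        · exact Or.inr ⟨by simp [h4], h5⟩)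
      simpa using h3
    · rw [h2]
      have h4 := (MWGP.H5.gap n β h.ga h.rn p (l ++ q) c c h1).1
      have h5 := ih (p ++ List.replicate (n + 1) c) (by
        intro d hd
        rcases hc d (by simp [hd]) with h4 | ⟨h4, h5⟩
        · exact Or.inl h4
        · exact Or.inr ⟨by simp [h4], h5⟩)
      simp only [List.append_assoc, List.cons_append] at h4 h5 ⊢
      exact β.trans h4 h5

/-- the normalised family is related to the family -/
theorem nrm_rr {n : ℕ} {β : FIC} (h : BG n (RR β)) (k : ℕ) (B : ℕ → List ℕ) :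
    RR β (asm k B) (asm k (nrm n B)) := by
  apply Pool.Agent.MWHP.Comp.c_MWS_Blr β k B (nrm n B)
  intro m hm
  have e1 := asm_split hm (fun j => if j < m then nrm n B j else B j)
  have e2 : asm k (fun j => if j < m + 1 then nrm n B j else B j) =
      asm k (Function.update (fun j => if j < m then nrm n B j else B j) m (nrm n B m)) := by
    apply asm_congr
    intro j _
    by_cases hj : j = m
    · subst hj
      rw [Function.update_self, if_pos (Nat.lt_succ_self _)]
    · rw [Function.update_of_ne hj]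
      by_cases hl : j < m
      · rw [if_pos hl, if_pos (by omega)]
      · rw [if_neg hl, if_neg (by omega)]
  rw [e2, asm_update hm, e1]
  simp only [lt_irrefl, if_false]
  rw [List.append_assoc, List.append_assoc]
  apply fm_rr h
  intro c hc
  by_cases hh : (∃ l < m, c ∈ B l) ∧ (B m).count c = 1
  · right
    refine ⟨mem_pre.2 (Or.inr ?_), ?_⟩
    · obtain ⟨l, hl, hcl⟩ := hh.1
      refine ⟨l, hl, ?_⟩
      rw [if_pos hl]
      exact (nrm_mem n B l c).2 hcl
    · unfold rr1
      rw [if_pos hh]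
  · left
    unfold rr1
    rw [if_neg hh]

theorem nrm_ok {n k : ℕ} {B : ℕ → List ℕ} (hB : OkB k B) : OkB k (nrm n B) := by
  constructor
  · intro j hj c hc
    exact hB.ok j hj c ((nrm_mem n B j c).1 hc)
  · intro j hj c hc
    refine (hB.ml j hj c ((nrm_mem n B j c).1 hc)).trans ?_
    unfold deg
    apply Finset.sum_le_sum
    intro i _
    rw [nrm_count]
    exact Nat.le_mul_of_pos_right _ (rr1_pos n B i c)

theorem nrm_gm {n : ℕ} (hn : 1 ≤ n) (k : ℕ) (B : ℕ → List ℕ) (c : ℕ) :
    MWGP.Gm k (ty (nrm n B) c) := by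
  intro l j hlj _ hl hj
  have hcl : c ∈ B l := (nrm_mem n B l c).1 (List.count_pos_iff.1 (Nat.pos_of_ne_zero hl))
  have hcj : 0 < (B j).count c :=
    List.count_pos_iff.2 ((nrm_mem n B j c).1 (List.count_pos_iff.1 (Nat.pos_of_ne_zero hj)))
  show 2 ≤ (nrm n B j).count c
  rw [nrm_count]
  by_cases h1 : (B j).count c = 1
  · have : rr1 n B j c = n + 1 := by
      unfold rr1
      rw [if_pos ⟨⟨l, hlj, hcl⟩, h1⟩]
    rw [this, h1]
    omega
  · have h2 : 2 ≤ (B j).count c := by omega
    calc 2 ≤ (B j).count c * 1 := by omega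
      _ ≤ _ := Nat.mul_le_mul_left _ (rr1_pos n B j c)

/-- row NGM -/
theorem ngm : NgmStmt := by
  intro n β h k B B' hB hB' hT
  refine ⟨nrm n B, nrm n B', nrm_ok hB, nrm_ok hB', ?_, fun c _ => nrm_gm h.pos k B c,
    fun c _ => nrm_gm h.pos k B' c, nrm_rr h k B, nrm_rr h k B'⟩
  intro c hc j hj
  have hearl : (∃ l < j, c ∈ B l) ↔ (∃ l < j, c ∈ B' l) := by
    have key : ∀ l < j, (c ∈ B l ↔ c ∈ B' l) := by
      intro l hl
      have h2 := hT c hc l (by omega)
      change (B l).count c = (B' l).count c ∨ (2 ≤ (B l).count c ∧ 2 ≤ (B' l).count c ∧ _) at h2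
      rw [← List.count_pos_iff, ← List.count_pos_iff]
      rcases h2 with h2 | ⟨h2, h3, _⟩
      · rw [h2]
      · constructor <;> intro _ <;> omega
    constructor
    · rintro ⟨l, hl, h3⟩
      exact ⟨l, hl, (key l hl).1 h3⟩
    · rintro ⟨l, hl, h3⟩
      exact ⟨l, hl, (key l hl).2 h3⟩
  have h2 := hT c hc j hj
  change (B j).count c = (B' j).count c ∨ (2 ≤ (B j).count c ∧ 2 ≤ (B' j).count c ∧
    (B j).count c ≡ (B' j).count c [MOD n]) at h2
  change (nrm n B j).count c = (nrm n B' j).count c ∨ (2 ≤ (nrm n B j).count c ∧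
    2 ≤ (nrm n B' j).count c ∧ (nrm n B j).count c ≡ (nrm n B' j).count c [MOD n])
  rw [nrm_count, nrm_count]
  rcases h2 with h2 | ⟨h2, h3, h4⟩
  · left
    have : rr1 n B j c = rr1 n B' j c := by
      unfold rr1
      rw [h2]
      by_cases h5 : (∃ l < j, c ∈ B l) ∧ (B' j).count c = 1
      · rw [if_pos h5, if_pos ⟨hearl.1 h5.1, h5.2⟩]
      · rw [if_neg h5, if_neg (fun h6 => h5 ⟨hearl.2 h6.1, h6.2⟩)]
    rw [this, h2]
  · right
    have e1 : rr1 n B j c = 1 := by
      unfold rr1
      rw [if_neg (fun h6 => by omega)]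
    have e2 : rr1 n B' j c = 1 := by
      unfold rr1
      rw [if_neg (fun h6 => by omega)]
    rw [e1, e2, Nat.mul_one, Nat.mul_one]
    exact ⟨h2, h3, h4⟩

/-- row PRIN -/
theorem prin : PrinStmt := by
  intro n β h hE
  have hb := (bgb n β h).1
  refine B.ddg n β hb (B.edd n β hb.cap ?_)
  intro k B B' hB hB' hT
  obtain ⟨C, C', hC, hC', hT', g, g', r, r'⟩ := ngm n β h k B B' hB hB' hT
  obtain ⟨L, hL, hiff⟩ := hE k C C' hC hC' hT' g g'
  refine ⟨L, hL, ?_⟩
  intro θ hθ nθ
  rw [← hiff θ hθ nθ]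
  constructor
  · intro h1
    exact θ.trans (θ.symm (hθ _ _ r)) (θ.trans h1 (hθ _ _ r'))
  · intro h1
    exact θ.trans (hθ _ _ r) (θ.trans h1 (θ.symm (hθ _ _ r')))

end Pool.Agent.MWGR.H48P
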