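import Pool.Agent.MWGR.StmtsB

/-!
# Block MWGR, row RPG
-/

set_option autoImplicit false

namespace Pool.Agent.MWGR.H48RPG

open Pool.Agent.Helper14_MV Pool.Agent.Helper2_MV Pool.Agent.MVO Pool.Agent.MWL Pool.Agent.MWS
open Pool.Agent.MWGR

/-- insertion of `x^(n m)` between two occurrences of `x` -/
theorem itm {n : ℕ} {β : FIC} (h : It n (RR β)) (x m : ℕ) : ∀ (p w w' q : List ℕ),
    (∀ c, c ∈ w ∨ c ∈ w' → 2 ≤ (p ++ x :: (w ++ (w' ++ x :: q))).count c) →
      RR β (p ++ x :: (w ++ (w' ++ x :: q)))
        (p ++ x :: (w ++ (List.replicate (n * m) x ++ (w' ++ x :: q)))) := by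
  induction m with
  | zero =>
    intro p w w' q _
    simp only [Nat.mul_zero, List.replicate_zero, List.nil_append]
    exact RR.refl _
  | succ m ih =>
    intro p w w' q hc
    have h1 := h p w w' q x (by
      intro c hc'
      exact hc c (List.mem_append.1 hc'))
    have h2 := ih p w (List.replicate n x ++ w') q (by
      intro c hc'
      have e : (p ++ x :: (w ++ ((List.replicate n x ++ w') ++ x :: q))).count c =
          (p ++ x :: (w ++ (w' ++ x :: q))).count c + (List.replicate n x).count c := by
        simp only [List.count_append, List.count_cons]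
        omega
      rw [e]
      rcases hc' with h3 | h3
      · exact le_trans (hc c (Or.inl h3)) (Nat.le_add_right _ _)
      · rcases List.mem_append.1 h3 with h4 | h4
        · have h5 := List.eq_of_mem_replicate h4
          subst h5
          have : 2 ≤ (p ++ c :: (w ++ (w' ++ c :: q))).count c := by
            simp only [List.count_append, List.count_cons_self]
            omega
          exact le_trans this (Nat.le_add_right _ _)
        · exact le_trans (hc c (Or.inr h4)) (Nat.le_add_right _ _))
    have e2 : p ++ x :: (w ++ ((List.replicate n x ++ w') ++ x :: q)) =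
        p ++ x :: (w ++ (List.replicate n x ++ (w' ++ x :: q))) := by simp
    have e3 : p ++ x :: (w ++ (List.replicate (n * m) x ++ ((List.replicate n x ++ w') ++ x :: q))) =
        p ++ x :: (w ++ (List.replicate (n * (m + 1)) x ++ (w' ++ x :: q))) := by
      rw [Nat.mul_succ, List.replicate_add, List.append_assoc, List.append_assoc]
    rw [e2, e3] at h2
    exact β.trans h1 h2

/-- row RPG -/
theorem rpg : RpgStmt := by
  intro n β hI k B hB i hi x P Q m hPQ h2
  obtain ⟨S, hS⟩ : ∃ S, S = pre B i := ⟨_, rfl⟩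
  obtain ⟨T, hT⟩ : ∃ T, T = suf B i (k - i) := ⟨_, rfl⟩
  have hw : ∀ L, asm k (Function.update B i L) = S ++ L ++ T := by
    intro L
    rw [asm_update hi, hS, hT]
  have hw0 : asm k B = S ++ (P ++ x :: Q) ++ T := by
    rw [asm_split hi B, ← hS, ← hT, hPQ]
  have hcount : ∀ c ∈ B i, 2 ≤ (S ++ (P ++ x :: Q) ++ T).count c := by
    intro c hc
    rw [← hw0, count_asm (hB.ok i hi c hc)]
    exact hB.ml i hi c hc
  rw [hw, hw0]
  by_cases hx : x ∈ P
  · obtain ⟨P1, P2, rfl⟩ := List.append_of_mem hx
    have e1 : S ++ ((P1 ++ x :: P2) ++ x :: Q) ++ T =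
        (S ++ P1) ++ x :: (P2 ++ ([] ++ x :: (Q ++ T))) := by
      simp
    have e2 : S ++ ((P1 ++ x :: P2) ++ (List.replicate (n * m + 1) x ++ Q)) ++ T
        = (S ++ P1) ++ x :: (P2 ++ (List.replicate (n * m) x ++ ([] ++ x :: (Q ++ T)))) := by
      rw [List.replicate_succ']
      simp
    have h3 := itm hI x m (S ++ P1) P2 [] (Q ++ T) (by
      intro c hc
      rw [← e1]
      refine hcount c ?_
      rw [hPQ]
      rcases hc with hc | hc
      · simp [hc]
      · simp at hc)
    rw [← e1, ← e2] at h3
    exact h3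
  · have hxQ : x ∈ Q := by
      have h5 : (P ++ x :: Q).count x = Q.count x + 1 := by
        rw [List.count_append, List.count_eq_zero_of_not_mem hx, List.count_cons_self, Nat.zero_add]
      rw [hPQ, h5] at h2
      apply List.count_pos_iff.1
      omega
    obtain ⟨Q1, Q2, rfl⟩ := List.append_of_mem hxQ
    have e1 : S ++ (P ++ x :: (Q1 ++ x :: Q2)) ++ T =
        (S ++ P) ++ x :: ([] ++ (Q1 ++ x :: (Q2 ++ T))) := by
      simp
    have e2 : S ++ (P ++ (List.replicate (n * m + 1) x ++ (Q1 ++ x :: Q2))) ++ T
        = (S ++ P) ++ x :: ([] ++ (List.replicate (n * m) x ++ (Q1 ++ x :: (Q2 ++ T)))) := by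
      rw [List.replicate_succ]
      simp
    have h3 := itm hI x m (S ++ P) [] Q1 (Q2 ++ T) (by
      intro c hc
      rw [← e1]
      refine hcount c ?_
      rw [hPQ]
      rcases hc with hc | hc
      · simp at hc
      · simp [hc])
    rw [← e1, ← e2] at h3
    exact h3

end Pool.Agent.MWGR.H48RPG
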